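import Pool.Agent.W737.Sub.Amb6

/-!
# Commutator type equals Levi-form type for subbundles of pseudoconvex hypersurfaces

For every smooth pseudoconvex real hypersurface `M ⊂ ℂ^n`, every smooth complex subbundle `B` of
`T^{1,0}M` of any rank `s` and every point `p ∈ M`, the commutator type and the Levi-form type of `B`
at `p` agree.

All notions (`IsHypersurface`, `Pseudoconvex`, `IsSubbundle`, `IsSection`, `IsM1`, `InMod`,
`commType`, `HasLeviType`, `leviType`) are defined in `Pool/Agent/W737/Sub/HDef.lean`.
The open set `V` is the region on which sections and fields are required to be defined; `V = U`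
gives the types computed with sections over all of `M`, small `V` gives the germ version.

Method: `M × ℂ` carries the `(1,0)` field
`L' = ∂_ζ + ∑_j ζ^{2r-j} ζ̄^j K_j` (`K_1, …, K_r` sections of `B`); the brackets of `L'` and the
derivatives of its Levi form on the slice `ζ = 0` recover those of the tuple `K`, with every letter
counted `2r+1` times, so that the statement for one vector field (the starting library `DAng`) on
`M × ℂ` gives the statement for subbundles.
-/

set_option autoImplicit false

namespace Pool.Agent.Results.MP_d7cc7c_an.SubbundleTypes

open Pool.Agent.W737.Sub.FT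

/-- Both types agree; more precisely the statement that the Levi-form type of `B` at `p` is `m` holds for exactly one
`m`, namely the commutator type, if this is finite, and for no `m` if the commutator type is `∞`. -/
theorem result : ∀ (n s : ℕ) (U V M : Set (Cn n)) (ρ : Cn n → ℝ) (B : Cn n → Submodule ℂ (Cn n)),
    IsHypersurface U ρ M → Pseudoconvex ρ M → IsSubbundle M ρ s B → IsOpen V → V ⊆ U →
    ∀ p ∈ M ∩ V,
      (∀ m : ℕ, HasLeviType V M ρ B p m ↔ commType V M ρ B p = m) ∧
        commType V M ρ B p = leviType V M ρ B p :=
  fun _ _ _ _ _ _ _ hM hP hB hV hVU _ hp => types hM hP hB hV hVU hp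

end Pool.Agent.Results.MP_d7cc7c_an.SubbundleTypes
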